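import Pool.Agent.Q139.Cantor.Defs

/-!
# A non-amenable group of automorphisms of a countable order without quasimorphisms
-/

set_option autoImplicit false

namespace Pool.Agent.Q139.Cantor

/-! ## Quasimorphisms -/

section Quasi

variable {G : Type*} [Group G] {φ : G → ℝ} {K : ℝ}

theorem eq_zero_of_nat_mul_le {x K : ℝ} (h : ∀ n : ℕ, |(n : ℝ) * x| ≤ K) : x = 0 := by
  by_contra hx
  have hx' : 0 < |x| := abs_pos.2 hx
  obtain ⟨n, hn⟩ := exists_nat_gt (K / |x|)
  have h1 := h n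
  rw [abs_mul, Nat.abs_cast] at h1
  rw [div_lt_iff₀ hx'] at hn
  linarith

theorem quasi_conj (hK : ∀ g h, |φ (g * h) - φ g - φ h| ≤ K)
    (hn : ∀ (g : G) (n : ℤ), φ (g ^ n) = n * φ g) (g x : G) : φ (g * x * g⁻¹) = φ x := by
  rw [← sub_eq_zero]
  refine eq_zero_of_nat_mul_le (K := 2 * K) fun n => ?_
  have h1 : (g * x * g⁻¹) ^ (n : ℤ) = g * x ^ (n : ℤ) * g⁻¹ := by
    rw [conj_zpow]
  have h2 := hn (g * x * g⁻¹) n
  have h3 := hn x n
  rw [h1] at h2
  have h4 : φ g⁻¹ = - φ g := by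
    have := hn g (-1)
    rw [zpow_neg_one] at this
    push_cast at this
    linarith
  have h5 := abs_le.1 (hK g (x ^ (n : ℤ)))
  have h6 := abs_le.1 (hK (g * x ^ (n : ℤ)) g⁻¹)
  have h7 : (n : ℝ) * (φ (g * x * g⁻¹) - φ x) =
      φ (g * x ^ (n : ℤ) * g⁻¹) - φ (x ^ (n : ℤ)) := by
    rw [h2, h3]
    push_cast
    ring
  rw [h7, abs_le]
  constructor <;> linarith [h5.1, h5.2, h6.1, h6.2]

/-- if the kernel of a homomorphism consists of commutators with `t`, and `t` generates the image,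
then all homogeneous quasimorphisms are homomorphisms -/
theorem quasi_hom {Q : Type*} [Group Q] (π : G →* Q) (t : G)
    (h1 : ∀ h : G, π h = 1 → ∃ g, h = g * t * g⁻¹ * t⁻¹) (h2 : ∀ x : G, ∃ k : ℤ, π x = π t ^ k)
    (hK : ∀ g h, |φ (g * h) - φ g - φ h| ≤ K)
    (hn : ∀ (g : G) (n : ℤ), φ (g ^ n) = n * φ g) (x y : G) : φ (x * y) = φ x + φ y := by
  have hinv : ∀ g, φ g⁻¹ = - φ g := by
    intro g
    have := hn g (-1)
    rw [zpow_neg_one] at this
    push_cast at this
    linarith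
  -- the quasimorphism vanishes on the kernel
  have hker : ∀ h, π h = 1 → φ h = 0 := by
    intro h hh
    refine eq_zero_of_nat_mul_le (K := K) fun n => ?_
    have e1 := hn h n
    rw [zpow_natCast] at e1
    push_cast at e1
    rw [← e1]
    obtain ⟨g, hg⟩ := h1 (h ^ n) (by rw [map_pow, hh, one_pow])
    have e2 := hK (g * t * g⁻¹) t⁻¹
    rw [← hg, quasi_conj hK hn, hinv] at e2
    simpa using e2
  have hval : ∀ (x : G) (k : ℤ), π x = π t ^ k → φ x = k * φ t := by
    intro x k hx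
    rw [← sub_eq_zero]
    refine eq_zero_of_nat_mul_le (K := K) fun n => ?_
    have e1 := hn x n
    rw [zpow_natCast] at e1
    push_cast at e1
    have e2 : π (x ^ n * (t ^ (k * n))⁻¹) = 1 := by
      rw [map_mul, map_pow, hx, map_inv, map_zpow, zpow_mul, zpow_natCast, mul_inv_cancel]
    have e3 := hker _ e2
    have e4 := hK (x ^ n * (t ^ (k * n))⁻¹) (t ^ (k * n))
    rw [inv_mul_cancel_right, e3, e1, hn t] at e4
    push_cast at e4
    rw [show (n : ℝ) * (φ x - k * φ t) = n * φ x - 0 - k * n * φ t by ring]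
    exact e4
  obtain ⟨k, hk⟩ := h2 x
  obtain ⟨l, hl⟩ := h2 y
  rw [hval x k hk, hval y l hl, hval (x * y) (k + l) (by rw [map_mul, hk, hl, zpow_add])]
  push_cast
  ring

end Quasi

/-! ## Means -/

section Mean

theorem Amenable.of_equiv {G H : Type*} [Group G] [Group H] (e : G ≃* H) (h : Amenable H) :
    Amenable G := by
  obtain ⟨μ, h0, h1, h2, h3⟩ := h
  refine ⟨fun A => μ (e '' A), fun A => h0 _, ?_, ?_, ?_⟩
  · beta_reduce
    rw [Set.image_univ, e.surjective.range_eq, h1]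
  · intro A B hAB
    beta_reduce
    rw [Set.image_union]
    exact h2 _ _ ((Set.disjoint_image_iff e.injective).2 hAB)
  · intro g A
    beta_reduce
    rw [← h3 (e g) (e '' A)]
    congr 1
    rw [Set.image_image, Set.image_image]
    simp only [map_mul]

/-- an amenable group of permutations has an invariant mean -/
theorem Amenable.mean {G X : Type*} [Group G] (h : Amenable G) (ρ : G →* Equiv.Perm X) (x₀ : X) :
    ∃ m : Set X → ℝ, (∀ A, 0 ≤ m A) ∧ m Set.univ = 1 ∧
      (∀ A B, Disjoint A B → m (A ∪ B) = m A + m B) ∧ ∀ (g : G) (A : Set X),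
        m (ρ g '' A) = m A := by
  obtain ⟨μ, h0, h1, h2, h3⟩ := h
  refine ⟨fun A => μ {g | ρ g x₀ ∈ A}, fun A => h0 _, ?_, ?_, ?_⟩
  · simp only [Set.mem_univ, Set.setOf_true, h1]
  · intro A B hAB
    rw [← h2]
    · rfl
    · rw [Set.disjoint_left]
      intro g hg hg'
      exact Set.disjoint_left.1 hAB hg hg'
  · intro g A
    beta_reduce
    rw [← h3 g {g | ρ g x₀ ∈ A}]
    congr 1
    ext k
    constructor
    · rintro ⟨a, ha, hk⟩
      refine ⟨g⁻¹ * k, ?_, by simp⟩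
      simp only [Set.mem_setOf_eq, map_mul, Equiv.Perm.mul_apply, ← hk]
      rw [← Equiv.Perm.mul_apply, ← map_mul, inv_mul_cancel, map_one]
      exact ha
    · rintro ⟨l, hl, rfl⟩
      refine ⟨ρ l x₀, hl, ?_⟩
      simp only [map_mul, Equiv.Perm.mul_apply]

end Mean

/-! ## The automorphisms of `ℚ` -/

/-- the increasing bijection of the interval `[0, 1)` -/
def f (u : ℚ) : ℚ := min (3 * u) ((u + 2) / 3)

/-- its inverse -/
def fi (v : ℚ) : ℚ := max (v / 3) (3 * v - 2)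

theorem f_mem {u : ℚ} (h0 : 0 ≤ u) (h1 : u < 1) : 0 ≤ f u ∧ f u < 1 := by
  unfold f
  constructor
  · exact le_min (by linarith) (by linarith)
  · exact (min_le_right _ _).trans_lt (by linarith)

theorem fi_mem {u : ℚ} (h0 : 0 ≤ u) (h1 : u < 1) : 0 ≤ fi u ∧ fi u < 1 := by
  unfold fi
  constructor
  · exact le_trans (by linarith) (le_max_left _ _)
  · exact max_lt (by linarith) (by linarith)

theorem fi_f {u : ℚ} : fi (f u) = u := by
  unfold f fi
  rcases le_total (3 * u) ((u + 2) / 3) with h | h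
  · rw [min_eq_left h, max_eq_left (by linarith)]
    ring
  · rw [min_eq_right h, max_eq_right (by linarith)]
    ring

theorem f_fi {u : ℚ} : f (fi u) = u := by
  unfold f fi
  rcases le_total (u / 3) (3 * u - 2) with h | h
  · rw [max_eq_right h, min_eq_right (by linarith)]
    ring
  · rw [max_eq_left h, min_eq_left (by linarith)]
    ring

theorem f_mono {u v : ℚ} (h : u ≤ v) : f u ≤ f v := by
  unfold f
  exact min_le_min (by linarith) (by linarith)

theorem fi_mono {u v : ℚ} (h : u ≤ v) : fi u ≤ fi v := by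
  unfold fi
  exact max_le_max (by linarith) (by linarith)

/-- the periodic extension of a map of `[0, 1)` -/
def per (g : ℚ → ℚ) (x : ℚ) : ℚ := ⌊x⌋ + g (Int.fract x)

theorem per_floor {g : ℚ → ℚ} (hg : ∀ u, 0 ≤ u → u < 1 → 0 ≤ g u ∧ g u < 1) (x : ℚ) :
    ⌊per g x⌋ = ⌊x⌋ := by
  obtain ⟨a, b⟩ := hg _ (Int.fract_nonneg x) (Int.fract_lt_one x)
  rw [per, Int.floor_eq_iff]
  constructor <;> linarith

theorem per_fract {g : ℚ → ℚ} (hg : ∀ u, 0 ≤ u → u < 1 → 0 ≤ g u ∧ g u < 1) (x : ℚ) :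
    Int.fract (per g x) = g (Int.fract x) := by
  rw [Int.fract, per_floor hg, per]
  ring

theorem per_mono {g : ℚ → ℚ} (hg : ∀ u, 0 ≤ u → u < 1 → 0 ≤ g u ∧ g u < 1)
    (hm : ∀ u v, u ≤ v → g u ≤ g v) : Monotone (per g) := by
  intro x y h
  obtain ⟨a, b⟩ := hg _ (Int.fract_nonneg x) (Int.fract_lt_one x)
  obtain ⟨c, d⟩ := hg _ (Int.fract_nonneg y) (Int.fract_lt_one y)
  have h1 : ⌊x⌋ ≤ ⌊y⌋ := Int.floor_le_floor h
  rcases h1.lt_or_eq with h2 | h2
  · have h3 : (⌊x⌋ : ℚ) + 1 ≤ ⌊y⌋ := by exact_mod_cast h2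
    unfold per
    linarith
  · unfold per
    rw [h2]
    have h3 : Int.fract x ≤ Int.fract y := by
      unfold Int.fract
      rw [h2]
      linarith
    linarith [hm _ _ h3]

/-- the automorphism `α` -/
def α : ℚ ≃o ℚ where
  toFun := per f
  invFun := per fi
  left_inv x := by
    rw [per, per_floor (fun _ => f_mem), per_fract (fun _ => f_mem), fi_f, Int.floor_add_fract]
  right_inv x := by
    rw [per, per_floor (fun _ => fi_mem), per_fract (fun _ => fi_mem), f_fi,
      Int.floor_add_fract]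
  map_rel_iff' := by
    intro x y
    simp only [Equiv.coe_fn_mk]
    constructor
    · intro h
      have := per_mono (g := fi) (fun _ => fi_mem) (fun _ _ => fi_mono) h
      rwa [per, per_floor (fun _ => f_mem), per_fract (fun _ => f_mem), fi_f,
        Int.floor_add_fract, per, per_floor (fun _ => f_mem), per_fract (fun _ => f_mem), fi_f,
        Int.floor_add_fract] at this
    · exact fun h => per_mono (g := f) (fun _ => f_mem) (fun _ _ => f_mono) h

theorem α_fract (x : ℚ) : Int.fract (α x) = f (Int.fract x) := per_fract (fun _ => f_mem) x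

theorem α_key (x : ℚ) : Int.fract (α x) < 3 / 4 ↔ Int.fract x < 1 / 4 := by
  rw [α_fract, f]
  constructor
  · intro h
    by_contra hc
    push Not at hc
    have : 3 / 4 ≤ min (3 * Int.fract x) ((Int.fract x + 2) / 3) :=
      le_min (by linarith) (by linarith)
    linarith
  · intro h
    exact (min_le_left _ _).trans_lt (by linarith)

/-- the automorphism `β` -/
def β : ℚ ≃o ℚ := (OrderIso.subRight (1 / 2 : ℚ)).trans (α.trans (OrderIso.addRight (1 / 2 : ℚ)))

theorem β_key (x : ℚ) : Int.fract (β x - 1 / 2) < 3 / 4 ↔ Int.fract (x - 1 / 2) < 1 / 4 := by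
  rw [← α_key]
  have : β x - 1 / 2 = α (x - 1 / 2) := by
    show α (x - 1 / 2) + 1 / 2 - 1 / 2 = _
    ring
  rw [this]

/-! ## The order and the group -/

/-- the countable dense order -/
abbrev D : Type := ℤ ×ₗ ℚ

noncomputable instance : Encodable D := Encodable.ofCountable (ℤ × ℚ)

instance : NoMinOrder D where
  exists_lt p := ⟨toLex ((ofLex p).1, (ofLex p).2 - 1), by
    rw [Prod.Lex.lt_iff]
    exact Or.inr ⟨rfl, by simp⟩⟩

instance : NoMaxOrder D where
  exists_gt p := ⟨toLex ((ofLex p).1, (ofLex p).2 + 1), by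
    rw [Prod.Lex.lt_iff]
    exact Or.inr ⟨rfl, by simp⟩⟩

instance : DenselyOrdered D where
  dense p q h := by
    rw [Prod.Lex.lt_iff] at h
    rcases h with h | ⟨h1, h2⟩
    · refine ⟨toLex ((ofLex p).1, (ofLex p).2 + 1), ?_, ?_⟩
      · rw [Prod.Lex.lt_iff]
        exact Or.inr ⟨rfl, by simp⟩
      · rw [Prod.Lex.lt_iff]
        exact Or.inl h
    · obtain ⟨z, hz1, hz2⟩ := exists_between h2
      refine ⟨toLex ((ofLex p).1, z), ?_, ?_⟩
      · rw [Prod.Lex.lt_iff]
        exact Or.inr ⟨rfl, hz1⟩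
      · rw [Prod.Lex.lt_iff]
        exact Or.inr ⟨h1, hz2⟩

/-- the automorphism given by a sequence of automorphisms of `ℚ` and a shift -/
def act (g : ℤ → (ℚ ≃o ℚ)) (k : ℤ) : D ≃o D where
  toFun p := toLex ((ofLex p).1 + k, g ((ofLex p).1 + k) (ofLex p).2)
  invFun p := toLex ((ofLex p).1 - k, (g (ofLex p).1).symm (ofLex p).2)
  left_inv p := by
    simp only [ofLex_toLex, add_sub_cancel_right, OrderIso.symm_apply_apply]
    rfl
  right_inv p := by
    simp only [ofLex_toLex, sub_add_cancel, OrderIso.apply_symm_apply]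
    rfl
  map_rel_iff' := by
    intro p q
    simp only [Equiv.coe_fn_mk]
    rw [Prod.Lex.le_iff, Prod.Lex.le_iff]
    simp only [ofLex_toLex, add_lt_add_iff_right, add_left_inj]
    constructor
    · rintro (h | ⟨h1, h2⟩)
      · exact Or.inl h
      · refine Or.inr ⟨h1, ?_⟩
        rw [h1] at h2
        exact (g _).le_iff_le.1 h2
    · rintro (h | ⟨h1, h2⟩)
      · exact Or.inl h
      · refine Or.inr ⟨h1, ?_⟩
        rw [h1]
        exact (g _).le_iff_le.2 h2

theorem act_apply (g : ℤ → (ℚ ≃o ℚ)) (k n : ℤ) (x : ℚ) :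
    act g k (toLex (n, x)) = toLex (n + k, g (n + k) x) := rfl

theorem ext_D {σ τ : D ≃o D} (h : ∀ (n : ℤ) (x : ℚ), σ (toLex (n, x)) = τ (toLex (n, x))) :
    σ = τ :=
  DFunLike.ext σ τ fun p => h (ofLex p).1 (ofLex p).2

/-- the group -/
def Gam : Subgroup (D ≃o D) where
  carrier := {σ | ∃ g k, σ = act g k}
  one_mem' := ⟨fun _ => 1, 0, ext_D fun n x => by
    rw [act_apply, add_zero]
    rfl⟩
  mul_mem' := by
    rintro _ _ ⟨g, k, rfl⟩ ⟨g', k', rfl⟩
    refine ⟨fun n => g n * g' (n - k), k' + k, ext_D fun n x => ?_⟩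
    rw [act_apply, RelIso.mul_apply, act_apply, act_apply, ← add_assoc, add_sub_cancel_right]
    rfl
  inv_mem' := by
    rintro _ ⟨g, k, rfl⟩
    refine ⟨fun n => (g (n + k))⁻¹, -k, ?_⟩
    rw [inv_eq_iff_mul_eq_one]
    refine ext_D fun n x => ?_
    show toLex (n + -k + k, g (n + -k + k) ((g (n + -k + k)).symm x)) = toLex (n, x)
    rw [OrderIso.apply_symm_apply, neg_add_cancel_right]

/-- the shift -/
def tt : Gam := ⟨act (fun _ => 1) 1, _, _, rfl⟩

/-- the degree -/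
def deg : Gam →* Multiplicative ℤ where
  toFun σ := Multiplicative.ofAdd (ofLex ((σ : D ≃o D) (toLex (0, 0)))).1
  map_one' := rfl
  map_mul' := by
    rintro ⟨_, g, k, rfl⟩ ⟨_, g', k', rfl⟩
    show Multiplicative.ofAdd ((0 : ℤ) + k' + k) = Multiplicative.ofAdd ((0 : ℤ) + k) *
      Multiplicative.ofAdd ((0 : ℤ) + k')
    rw [← ofAdd_add]
    congr 1
    ring

theorem deg_act (g : ℤ → (ℚ ≃o ℚ)) (k : ℤ) :
    deg ⟨act g k, g, k, rfl⟩ = Multiplicative.ofAdd k := by
  show Multiplicative.ofAdd ((0 : ℤ) + k) = _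
  rw [zero_add]

/-- the recursion -/
theorem exists_rec {A : Type*} [Group A] (g : ℤ → A) : ∃ u : ℤ → A, ∀ n, u (n + 1) = g (n + 1) * u n := by
  let up : ℕ → A := fun n => Nat.rec 1 (fun m a => g (m + 1) * a) n
  let dn : ℕ → A := fun n => Nat.rec 1 (fun m a => (g (-m))⁻¹ * a) n
  refine ⟨fun n => if 0 ≤ n then up n.toNat else dn (-n).toNat, fun n => ?_⟩
  rcases lt_trichotomy n (-1) with h | h | h
  · obtain ⟨m, hm⟩ : ∃ m : ℕ, n = -(m + 1 + 1 : ℤ) := ⟨(-n - 2).toNat, by omega⟩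
    subst hm
    simp only
    rw [if_neg (by omega), if_neg (by omega)]
    have e1 : (-(-((m : ℤ) + 1 + 1) + 1)).toNat = m + 1 := by omega
    have e2 : (-(-((m : ℤ) + 1 + 1))).toNat = m + 1 + 1 := by omega
    rw [e1, e2]
    show _ = g (-((m : ℤ) + 1 + 1) + 1) * ((g (-((m + 1 : ℕ) : ℤ)))⁻¹ * dn (m + 1))
    have e3 : (-((m : ℤ) + 1 + 1) + 1) = (-((m + 1 : ℕ) : ℤ)) := by push_cast; ring
    rw [e3, mul_inv_cancel_left]
  · subst h
    simp only
    rw [if_pos (by norm_num), if_neg (by norm_num)]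
    have e1 : ((-1 : ℤ) + 1).toNat = 0 := rfl
    have e2 : (-(-1 : ℤ)).toNat = 0 + 1 := rfl
    rw [e1, e2]
    show (1 : A) = g (-1 + 1) * ((g (-((0 : ℕ) : ℤ)))⁻¹ * 1)
    have e3 : (-1 + 1 : ℤ) = (-((0 : ℕ) : ℤ)) := by norm_num
    rw [e3, mul_one, mul_inv_cancel]
  · obtain ⟨m, hm⟩ : ∃ m : ℕ, n = (m : ℤ) := ⟨n.toNat, by omega⟩
    subst hm
    simp only
    rw [if_pos (by omega), if_pos (by omega)]
    have e1 : ((m : ℤ) + 1).toNat = m + 1 := by omega
    have e2 : ((m : ℤ)).toNat = m := by omega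
    rw [e1, e2]

theorem gam_comm (h : Gam) (hh : deg h = 1) : ∃ g : Gam, h = g * tt * g⁻¹ * tt⁻¹ := by
  obtain ⟨_, g, k, rfl⟩ := h
  rw [deg_act] at hh
  have hk : k = 0 := hh
  subst hk
  obtain ⟨u, hu⟩ := exists_rec g
  refine ⟨⟨act u 0, u, 0, rfl⟩, ?_⟩
  rw [eq_mul_inv_iff_mul_eq, eq_mul_inv_iff_mul_eq]
  refine Subtype.ext (ext_D fun n x => ?_)
  show act g 0 (act (fun _ => 1) 1 (act u 0 (toLex (n, x)))) =
    act u 0 (act (fun _ => 1) 1 (toLex (n, x)))
  rw [act_apply, act_apply, act_apply, act_apply, act_apply]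
  simp only [add_zero]
  rw [hu]
  rfl

theorem gam_gen (x : Gam) : ∃ k : ℤ, deg x = deg tt ^ k := by
  obtain ⟨_, g, k, rfl⟩ := x
  refine ⟨k, ?_⟩
  rw [deg_act, tt, deg_act, ← ofAdd_zsmul]
  simp

theorem gam_quasi {φ : Gam → ℝ} {K : ℝ} (hK : ∀ g h, |φ (g * h) - φ g - φ h| ≤ K)
    (hn : ∀ (g : Gam) (n : ℤ), φ (g ^ n) = n * φ g) (x y : Gam) : φ (x * y) = φ x + φ y :=
  quasi_hom deg tt gam_comm gam_gen hK hn x y

theorem gam_not_amenable : ¬ Amenable Gam := by
  intro h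
  let ρ : Gam →* Equiv.Perm D :=
    { toFun := fun σ => (σ : D ≃o D).toEquiv
      map_one' := rfl
      map_mul' := fun _ _ => rfl }
  obtain ⟨m, h0, h1, h2, h3⟩ := h.mean ρ (toLex (0, 0))
  have hcompl : ∀ A : Set D, m A + m Aᶜ = 1 := by
    intro A
    rw [← h2 A Aᶜ disjoint_compl_right, Set.union_compl_self, h1]
  -- the general step
  have step : ∀ (γ : ℚ ≃o ℚ) (A B : Set ℚ), (∀ x, γ x ∉ B ↔ x ∈ A) →
      m {p | (ofLex p).2 ∈ A} + m {p | (ofLex p).2 ∈ B} = 1 := by
    intro γ A B hAB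
    have e := h3 ⟨act (fun _ => γ) 0, _, _, rfl⟩ {p | (ofLex p).2 ∈ A}
    have e2 : (ρ ⟨act (fun _ => γ) 0, _, _, rfl⟩) '' {p | (ofLex p).2 ∈ A} =
        {p | (ofLex p).2 ∈ B}ᶜ := by
      ext p
      constructor
      · rintro ⟨q, hq, rfl⟩
        exact (hAB _).2 hq
      · intro hp
        refine ⟨toLex ((ofLex p).1, γ.symm (ofLex p).2), ?_, ?_⟩
        · show γ.symm (ofLex p).2 ∈ A
          rw [← hAB, γ.apply_symm_apply]
          exact hp
        · show toLex ((ofLex p).1 + 0, γ (γ.symm (ofLex p).2)) = p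
          rw [γ.apply_symm_apply, add_zero]
          rfl
    rw [← e, e2, add_comm]
    exact hcompl _
  have s1 := step α {x | Int.fract x < 1 / 4} {x | 3 / 4 ≤ Int.fract x} (fun x => by
    simp only [Set.mem_setOf_eq, not_le]
    exact α_key x)
  have s2 := step β {x | Int.fract (x - 1 / 2) < 1 / 4} {x | 3 / 4 ≤ Int.fract (x - 1 / 2)}
    (fun x => by
      simp only [Set.mem_setOf_eq, not_le]
      exact β_key x)
  rw [← h2] at s1 s2
  · have h4 := h2 _ _ (show Disjoint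
      ({p : D | (ofLex p).2 ∈ {x : ℚ | Int.fract x < 1 / 4}} ∪
        {p | (ofLex p).2 ∈ {x : ℚ | 3 / 4 ≤ Int.fract x}})
      ({p | (ofLex p).2 ∈ {x : ℚ | Int.fract (x - 1 / 2) < 1 / 4}} ∪
        {p | (ofLex p).2 ∈ {x : ℚ | 3 / 4 ≤ Int.fract (x - 1 / 2)}}) from by
        rw [Set.disjoint_left]
        intro p hp hp'
        simp only [Set.mem_union, Set.mem_setOf_eq] at hp hp'
        have e1 := Int.fract_nonneg (ofLex p).2
        have e2 := Int.fract_lt_one (ofLex p).2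
        have e3 := Int.fract_nonneg ((ofLex p).2 - 1 / 2)
        have e4 := Int.fract_lt_one ((ofLex p).2 - 1 / 2)
        have e5 : Int.fract ((ofLex p).2 - 1 / 2) - Int.fract (ofLex p).2 + 1 / 2 =
            ((⌊(ofLex p).2⌋ - ⌊(ofLex p).2 - 1 / 2⌋ : ℤ) : ℚ) := by
          unfold Int.fract
          push_cast
          ring
        set j : ℤ := ⌊(ofLex p).2⌋ - ⌊(ofLex p).2 - 1 / 2⌋
        set a := Int.fract (ofLex p).2
        set b := Int.fract ((ofLex p).2 - 1 / 2)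
        have hj : (j : ℚ) ≤ 0 ∨ (1 : ℚ) ≤ j := by
          rcases le_or_gt j 0 with h | h
          · left; exact_mod_cast h
          · right; exact_mod_cast h
        have hj' : (j : ℚ) ≤ -1 ∨ (0 : ℚ) ≤ j := by
          rcases le_or_gt j (-1) with h | h
          · left; exact_mod_cast h
          · right
            have : 0 ≤ j := by omega
            exact_mod_cast this
        have hj'' : (j : ℚ) ≤ 1 ∨ (2 : ℚ) ≤ j := by
          rcases le_or_gt j 1 with h | h
          · left; exact_mod_cast h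
          · right
            have : 2 ≤ j := by omega
            exact_mod_cast this
        rcases hp with hp | hp <;> rcases hp' with hp' | hp' <;> rcases hj with hj | hj <;>
          rcases hj' with hj' | hj' <;> rcases hj'' with hj'' | hj'' <;> linarith)
    rw [s1, s2] at h4
    have h5 := h0 (({p : D | (ofLex p).2 ∈ {x : ℚ | Int.fract x < 1 / 4}} ∪
        {p | (ofLex p).2 ∈ {x : ℚ | 3 / 4 ≤ Int.fract x}}) ∪
      ({p | (ofLex p).2 ∈ {x : ℚ | Int.fract (x - 1 / 2) < 1 / 4}} ∪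
        {p | (ofLex p).2 ∈ {x : ℚ | 3 / 4 ≤ Int.fract (x - 1 / 2)}}))ᶜ
    have h6 := hcompl (({p : D | (ofLex p).2 ∈ {x : ℚ | Int.fract x < 1 / 4}} ∪
        {p | (ofLex p).2 ∈ {x : ℚ | 3 / 4 ≤ Int.fract x}}) ∪
      ({p | (ofLex p).2 ∈ {x : ℚ | Int.fract (x - 1 / 2) < 1 / 4}} ∪
        {p | (ofLex p).2 ∈ {x : ℚ | 3 / 4 ≤ Int.fract (x - 1 / 2)}}))
    linarith
  · rw [Set.disjoint_left]
    intro p hp hp'
    simp only [Set.mem_setOf_eq] at hp hp'
    linarith
  · rw [Set.disjoint_left]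
    intro p hp hp'
    simp only [Set.mem_setOf_eq] at hp hp'
    linarith

end Pool.Agent.Q139.Cantor
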