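import Pool.Agent.Q139.Cantor.Wind

/-!
# The mapping class group of the plane minus a Cantor set, amenability and quasimorphisms

The plane is `ℂ`.
-/

set_option autoImplicit false

namespace Pool.Agent.Q139.Cantor

open Topology

/-- A Cantor set in the plane: non-empty, compact, totally disconnected and perfect. -/
structure IsCantorSet (C : Set ℂ) : Prop where
  nonempty : C.Nonempty
  compact : IsCompact C
  totallyDisconnected : IsTotallyDisconnected C
  perfect : Perfect C

/-- The surface `S = ℝ² - C`. -/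
def Surf (C : Set ℂ) : Type := {p : ℂ // p ∉ C}

/-- The topology of `S` as a subspace of the plane. -/
noncomputable instance surfTop (C : Set ℂ) : TopologicalSpace (Surf C) :=
  @instTopologicalSpaceSubtype ℂ (fun p => p ∉ C) _

theorem continuous_val {C : Set ℂ} : Continuous (fun p : Surf C => p.1) :=
  continuous_subtype_val

theorem near {C : Set ℂ} {f : Surf C → Surf C} (hf : Continuous f) (x : Surf C) {ε : ℝ}
    (hε : 0 < ε) : ∃ δ > 0, ∀ y : Surf C, dist y.1 x.1 < δ → dist (f y).1 (f x).1 < ε := by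
  have h1 := @Metric.continuousAt_iff {p : ℂ // p ∉ C} {p : ℂ // p ∉ C} _ _ f x
  obtain ⟨δ, hδ, h⟩ := h1.1 hf.continuousAt ε hε
  exact ⟨δ, hδ, fun y hy => h hy⟩

/-- The homeomorphism `f` of `S` preserves the orientation: near every point `x`, it preserves the
winding numbers about `x` of the loops in `S \ {x}`. -/
def OrientationPreserving {C : Set ℂ} (f : Surf C ≃ₜ Surf C) : Prop :=
  ∀ x : Surf C, ∃ ε > 0, ∀ γ : ℝ → Surf C, Continuous γ → (∀ t, γ (t + 1) = γ t) →
    (∀ t, γ t ≠ x ∧ dist (γ t).1 x.1 < ε) → ∀ n : ℤ,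
      (HasWinding (fun t => (γ t).1 - x.1) n ↔ HasWinding (fun t => (f (γ t)).1 - (f x).1) n)

theorem OrientationPreserving.one {C : Set ℂ} :
    OrientationPreserving (1 : Surf C ≃ₜ Surf C) :=
  fun _ => ⟨1, one_pos, fun _ _ _ _ _ => Iff.rfl⟩

theorem OrientationPreserving.mul {C : Set ℂ} {f g : Surf C ≃ₜ Surf C}
    (hf : OrientationPreserving f) (hg : OrientationPreserving g) :
    OrientationPreserving (f * g) := by
  intro x
  obtain ⟨ε, hε, h1⟩ := hg x
  obtain ⟨η, hη, h2⟩ := hf (g x)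
  obtain ⟨δ, hδ, h3⟩ := near g.continuous x hη
  refine ⟨min ε δ, lt_min hε hδ, fun γ hγ hp hb n => ?_⟩
  have a := h1 γ hγ hp (fun t => ⟨(hb t).1, lt_of_lt_of_le (hb t).2 (min_le_left _ _)⟩) n
  have b := h2 (fun t => g (γ t)) (g.continuous.comp hγ) (fun t => by rw [hp])
    (fun t => ⟨fun h => (hb t).1 (g.injective h),
      h3 _ (lt_of_lt_of_le (hb t).2 (min_le_right _ _))⟩) n
  exact a.trans b

theorem OrientationPreserving.inv {C : Set ℂ} {f : Surf C ≃ₜ Surf C}
    (hf : OrientationPreserving f) : OrientationPreserving f⁻¹ := by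
  intro y
  obtain ⟨ε, hε, h1⟩ := hf (f.symm y)
  obtain ⟨δ, hδ, h3⟩ := near f.symm.continuous y hε
  refine ⟨δ, hδ, fun γ hγ hp hb n => ?_⟩
  have a := h1 (fun t => f.symm (γ t)) (f.symm.continuous.comp hγ) (fun t => by rw [hp])
    (fun t => ⟨fun h => (hb t).1 (f.symm.injective h), h3 _ (hb t).2⟩) n
  simp only [Homeomorph.apply_symm_apply] at a
  exact a.symm

/-- `Homeo⁺(S)`: the group of orientation-preserving homeomorphisms of `S`. -/
def HomeoPlus (C : Set ℂ) : Subgroup (Surf C ≃ₜ Surf C) where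
  carrier := {f | OrientationPreserving f}
  one_mem' := OrientationPreserving.one
  mul_mem' := OrientationPreserving.mul
  inv_mem' := OrientationPreserving.inv

/-- `f` is isotopic to the identity of `S`: there is a continuous map `h : [0, 1] × S → S` such
that every `h_t` is a homeomorphism of `S`, with `h_0` the identity and `h_1 = f`. -/
def IsotopicToId {C : Set ℂ} (f : Surf C ≃ₜ Surf C) : Prop :=
  ∃ h : unitInterval → (Surf C ≃ₜ Surf C),
    (Continuous fun p : unitInterval × Surf C => h p.1 p.2) ∧ h 0 = 1 ∧ h 1 = f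

theorem IsotopicToId.one {C : Set ℂ} : IsotopicToId (1 : Surf C ≃ₜ Surf C) :=
  ⟨fun _ => 1, continuous_snd, rfl, rfl⟩

theorem IsotopicToId.mul {C : Set ℂ} {f g : Surf C ≃ₜ Surf C} (hf : IsotopicToId f)
    (hg : IsotopicToId g) : IsotopicToId (f * g) := by
  obtain ⟨h, hc, h0, h1⟩ := hf
  obtain ⟨k, kc, k0, k1⟩ := hg
  refine ⟨fun t => h t * k t, ?_, ?_, ?_⟩
  · exact hc.comp (continuous_fst.prodMk kc)
  · beta_reduce
    rw [h0, k0, one_mul]
  · beta_reduce
    rw [h1, k1]

theorem IsotopicToId.inv {C : Set ℂ} {f : Surf C ≃ₜ Surf C} (hf : IsotopicToId f) :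
    IsotopicToId f⁻¹ := by
  obtain ⟨h, hc, h0, h1⟩ := hf
  refine ⟨fun t => f⁻¹ * h (unitInterval.symm t), ?_, ?_, ?_⟩
  · exact f.symm.continuous.comp
      (hc.comp ((unitInterval.continuous_symm.comp continuous_fst).prodMk continuous_snd))
  · beta_reduce
    rw [unitInterval.symm_zero, h1, inv_mul_cancel]
  · beta_reduce
    rw [unitInterval.symm_one, h0, mul_one]

theorem IsotopicToId.conj {C : Set ℂ} {f : Surf C ≃ₜ Surf C} (hf : IsotopicToId f)
    (g : Surf C ≃ₜ Surf C) : IsotopicToId (g * f * g⁻¹) := by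
  obtain ⟨h, hc, h0, h1⟩ := hf
  refine ⟨fun t => g * h t * g⁻¹, ?_, ?_, ?_⟩
  · exact g.continuous.comp
      (hc.comp (continuous_fst.prodMk (g.symm.continuous.comp continuous_snd)))
  · beta_reduce
    rw [h0, mul_one, mul_inv_cancel]
  · beta_reduce
    rw [h1]

/-- `Homeo_0(S)`: the group of homeomorphisms of `S` isotopic to the identity. -/
def HomeoZero (C : Set ℂ) : Subgroup (Surf C ≃ₜ Surf C) where
  carrier := {f | IsotopicToId f}
  one_mem' := IsotopicToId.one
  mul_mem' := IsotopicToId.mul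
  inv_mem' := IsotopicToId.inv

instance homeoZero_normal (C : Set ℂ) : (HomeoZero C).Normal :=
  ⟨fun _ h g => IsotopicToId.conj h g⟩

/-- The mapping class group `Map(S) = Homeo⁺(S) / Homeo_0(S)` of `S = ℝ² - C`. -/
def MapGroup (C : Set ℂ) : Type := HomeoPlus C ⧸ (HomeoZero C).subgroupOf (HomeoPlus C)

/-- The group structure of `Map(S)`. -/
noncomputable instance mapGroup (C : Set ℂ) : Group (MapGroup C) :=
  QuotientGroup.Quotient.group ((HomeoZero C).subgroupOf (HomeoPlus C))

/-- A (discrete) group is amenable if it carries a left-invariant finitely additive probability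
measure defined on all subsets. -/
def Amenable (G : Type*) [Group G] : Prop :=
  ∃ μ : Set G → ℝ, (∀ A, 0 ≤ μ A) ∧ μ Set.univ = 1 ∧
    (∀ A B, Disjoint A B → μ (A ∪ B) = μ A + μ B) ∧ ∀ (g : G) (A : Set G),
      μ ((fun x => g * x) '' A) = μ A

/-- The function `φ` on the group `G` is a homogeneous quasimorphism: it has bounded defect, and
`φ(g^n) = n φ(g)` for all integers `n`. -/
def IsHomogeneousQM {G : Type*} [Group G] (φ : G → ℝ) : Prop :=
  (∃ K : ℝ, ∀ g h, |φ (g * h) - φ g - φ h| ≤ K) ∧ ∀ (g : G) (n : ℤ), φ (g ^ n) = n * φ g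

end Pool.Agent.Q139.Cantor
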