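import Pool.Agent.Q139.Cantor.Line
import Pool.Agent.Q139.Cantor.Alg

/-!
# The group acts faithfully on the plane minus a Cantor set up to isotopy
-/

set_option autoImplicit false

namespace Pool.Agent.Q139.Cantor

open Topology Set

/-- the Cantor set in the plane -/
def CC : Set ℂ := (fun x : ℝ => (x : ℂ)) '' K D

theorem mem_CC {p : ℂ} : p ∈ CC ↔ p.im = 0 ∧ p.re ∈ K D := by
  constructor
  · rintro ⟨x, hx, rfl⟩
    exact ⟨Complex.ofReal_im x, by simpa using hx⟩
  · rintro ⟨h1, h2⟩
    exact ⟨p.re, h2, Complex.ext (by simp) (by simp [h1])⟩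

theorem isCantorSet_CC : IsCantorSet CC where
  nonempty := ⟨_, 0, zero_mem, rfl⟩
  compact := K_compact.image Complex.continuous_ofReal
  totallyDisconnected := by
    intro t ht hp x hx y hy
    have h1 : IsPreconnected (Complex.re '' t) := hp.image _ Complex.continuous_re.continuousOn
    have h2 : ∀ z ∈ Complex.re '' t, z ∈ K D := by
      rintro _ ⟨z, hz, rfl⟩
      exact (mem_CC.1 (ht hz)).2
    have h3 : ∀ a ∈ Complex.re '' t, ∀ b ∈ Complex.re '' t, ¬ a < b := by
      intro a ha b hb hab
      obtain ⟨z, hz1, hz2, hz3⟩ := exists_notMem (D := D) hab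
      exact hz3 (h2 z (h1.Icc_subset ha hb ⟨hz1.le, hz2.le⟩))
    have h4 : x.re = y.re := le_antisymm
      (not_lt.1 (h3 _ ⟨y, hy, rfl⟩ _ ⟨x, hx, rfl⟩)) (not_lt.1 (h3 _ ⟨x, hx, rfl⟩ _ ⟨y, hy, rfl⟩))
    exact Complex.ext h4 ((mem_CC.1 (ht hx)).1.trans (mem_CC.1 (ht hy)).1.symm)
  perfect := by
    refine ⟨(K_compact.image Complex.continuous_ofReal).isClosed, ?_⟩
    rintro _ ⟨x, hx, rfl⟩
    rw [accPt_iff_nhds]
    intro U hU
    obtain ⟨ε, hε, hb⟩ := Metric.mem_nhds_iff.1 hU
    obtain ⟨y, hy, hne, hd⟩ := exists_near hx hε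
    refine ⟨(y : ℂ), ⟨hb ?_, y, hy, rfl⟩, fun h => hne (Complex.ofReal_injective h)⟩
    rw [Metric.mem_ball, Complex.dist_eq, ← Complex.ofReal_sub, Complex.norm_real]
    exact hd

/-- the homeomorphism of the plane -/
noncomputable def plane (σ : D ≃o D) : ℂ ≃ₜ ℂ where
  toFun p := ⟨F σ p.re, p.im⟩
  invFun p := ⟨F σ⁻¹ p.re, p.im⟩
  left_inv p := by
    apply Complex.ext
    · simp only
      rw [F_comp, inv_mul_cancel, F_one]
    · rfl
  right_inv p := by
    apply Complex.ext
    · simp only
      rw [F_comp, mul_inv_cancel, F_one]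
    · rfl
  continuous_toFun := by
    have h1 : Continuous (F σ) := (Fiso σ).continuous
    have h2 : (fun p : ℂ => (⟨F σ p.re, p.im⟩ : ℂ)) =
        fun p : ℂ => ((F σ p.re : ℝ) : ℂ) + ((p.im : ℝ) : ℂ) * Complex.I := by
      funext p
      exact Complex.mk_eq_add_mul_I _ _
    rw [h2]
    exact (Complex.continuous_ofReal.comp (h1.comp Complex.continuous_re)).add
      ((Complex.continuous_ofReal.comp Complex.continuous_im).mul continuous_const)
  continuous_invFun := by
    have h1 : Continuous (F σ⁻¹) := (Fiso σ⁻¹).continuous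
    have h2 : (fun p : ℂ => (⟨F σ⁻¹ p.re, p.im⟩ : ℂ)) =
        fun p : ℂ => ((F σ⁻¹ p.re : ℝ) : ℂ) + ((p.im : ℝ) : ℂ) * Complex.I := by
      funext p
      exact Complex.mk_eq_add_mul_I _ _
    rw [h2]
    exact (Complex.continuous_ofReal.comp (h1.comp Complex.continuous_re)).add
      ((Complex.continuous_ofReal.comp Complex.continuous_im).mul continuous_const)

theorem plane_re (σ : D ≃o D) (p : ℂ) : (plane σ p).re = F σ p.re := rfl

theorem plane_im (σ : D ≃o D) (p : ℂ) : (plane σ p).im = p.im := rfl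

/-- its restriction to the complement of the Cantor set -/
noncomputable def surf (σ : D ≃o D) : Surf CC ≃ₜ Surf CC :=
  Homeomorph.subtype (p := fun p => p ∉ CC) (q := fun p => p ∉ CC) (plane σ) (fun p => by
    rw [not_iff_not, mem_CC, mem_CC, plane_re, plane_im, F_mem_K_iff])

theorem surf_re (σ : D ≃o D) (p : Surf CC) : (surf σ p).1.re = F σ p.1.re := rfl

theorem surf_im (σ : D ≃o D) (p : Surf CC) : (surf σ p).1.im = p.1.im := rfl

theorem surf_orientation (σ : D ≃o D) : OrientationPreserving (surf σ) := by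
  intro x
  refine ⟨1, one_pos, fun γ hγ hp hb n => ?_⟩
  have c1 : Continuous fun t => (γ t).1 - x.1 :=
    (continuous_val.comp hγ).sub continuous_const
  have c2 : Continuous fun t => (surf σ (γ t)).1 - (surf σ x).1 :=
    (continuous_val.comp ((surf σ).continuous.comp hγ)).sub continuous_const
  have p1 : ∀ t, (γ (t + 1)).1 - x.1 = (γ t).1 - x.1 := fun t => by rw [hp]
  have p2 : ∀ t, (surf σ (γ (t + 1))).1 - (surf σ x).1 =
      (surf σ (γ t)).1 - (surf σ x).1 := fun t => by rw [hp]
  have key : ∀ t, 0 < (((surf σ (γ t)).1 - (surf σ x).1) *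
      (starRingEnd ℂ) ((γ t).1 - x.1)).re := by
    intro t
    have hne := (hb t).1
    rw [Complex.mul_re, Complex.conj_re, Complex.conj_im, Complex.sub_re, Complex.sub_re,
      Complex.sub_im, Complex.sub_im, surf_re, surf_re, surf_im, surf_im]
    have hmono : StrictMono (F σ) := (Fiso σ).strictMono
    rcases lt_trichotomy (γ t).1.re x.1.re with h | h | h
    · have := hmono h
      nlinarith [sq_nonneg ((γ t).1.im - x.1.im)]
    · have h2 : (γ t).1.im ≠ x.1.im := fun h2 => hne (Subtype.ext (Complex.ext h h2))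
      have h3 : 0 < ((γ t).1.im - x.1.im) ^ 2 := by
        have : (γ t).1.im - x.1.im ≠ 0 := sub_ne_zero.2 h2
        positivity
      rw [h]
      nlinarith
    · have := hmono h
      nlinarith [sq_nonneg ((γ t).1.im - x.1.im)]
  constructor
  · exact HasWinding.congr c1 c2 p1 p2 key
  · refine HasWinding.congr c2 c1 p2 p1 (fun t => ?_)
    have := key t
    rw [Complex.mul_re, Complex.conj_re, Complex.conj_im] at this ⊢
    linarith

/-- the homomorphism to the group of homeomorphisms -/
noncomputable def Psi : (D ≃o D) →* HomeoPlus CC where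
  toFun σ := ⟨surf σ, surf_orientation σ⟩
  map_one' := by
    refine Subtype.ext (Homeomorph.ext fun p => Subtype.ext (Complex.ext ?_ rfl))
    exact F_one _
  map_mul' := by
    intro σ τ
    refine Subtype.ext (Homeomorph.ext fun p => Subtype.ext (Complex.ext ?_ rfl))
    exact (F_comp σ τ _).symm

/-- a homeomorphism isotopic to the identity fixes the Cantor set -/
theorem fix_of_isotopic {σ : D ≃o D} (h : IsotopicToId (surf σ)) {c : ℝ} (hc : c ∈ K D) :
    F σ c = c := by
  by_contra hne
  obtain ⟨h, hcont, h0, h1⟩ := h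
  have hF : Continuous (F σ) := (Fiso σ).continuous
  have hmono : StrictMono (F σ) := (Fiso σ).strictMono
  -- a small interval around the point
  have hpos : 0 < |F σ c - c| := abs_pos.2 (sub_ne_zero.2 hne)
  obtain ⟨δ, hδ, hδ1⟩ := Metric.continuousAt_iff.1 (hF.continuousAt (x := c)) _ hpos
  obtain ⟨a, ha1, ha2, ha3⟩ := exists_notMem (D := D) (show c - δ < c by linarith)
  obtain ⟨b, hb1, hb2, hb3⟩ := exists_notMem (D := D) (show c < c + δ by linarith)
  have hab : a < b := ha2.trans hb1
  have hFa := hδ1 (show dist a c < δ by rw [Real.dist_eq, abs_lt]; constructor <;> linarith)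
  have hFb := hδ1 (show dist b c < δ by rw [Real.dist_eq, abs_lt]; constructor <;> linarith)
  rw [Real.dist_eq] at hFa hFb
  -- the loop
  set m : ℝ := (a + b) / 2 with hm
  set r : ℝ := (b - a) / 2 with hr
  have hr0 : 0 < r := by rw [hr]; linarith
  have hcirc : ∀ t, (circ t).re ^ 2 + (circ t).im ^ 2 = 1 := by
    intro t
    have := circ_norm t
    have h2 : ‖circ t‖ ^ 2 = 1 := by rw [this]; norm_num
    rw [← Complex.normSq_eq_norm_sq, Complex.normSq_apply] at h2
    linarith
  have hre : ∀ t, ((m : ℂ) + (r : ℂ) * circ t).re = m + r * (circ t).re := by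
    intro t; simp
  have him : ∀ t, ((m : ℂ) + (r : ℂ) * circ t).im = r * (circ t).im := by
    intro t; simp
  have hnot : ∀ t, ((m : ℂ) + (r : ℂ) * circ t) ∉ CC := by
    intro t ht
    rw [mem_CC, hre, him] at ht
    obtain ⟨e1, e2⟩ := ht
    have e3 : (circ t).im = 0 := (mul_eq_zero.1 e1).resolve_left hr0.ne'
    have e4 := hcirc t
    rw [e3] at e4
    have e5 : ((circ t).re - 1) * ((circ t).re + 1) = 0 := by nlinarith
    rcases mul_eq_zero.1 e5 with e6 | e6
    · have : (circ t).re = 1 := by linarith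
      rw [this, hm, hr] at e2
      exact hb3 (by convert e2 using 1; ring)
    · have : (circ t).re = -1 := by linarith
      rw [this, hm, hr] at e2
      exact ha3 (by convert e2 using 1; ring)
  set γ : ℝ → Surf CC := fun t => ⟨(m : ℂ) + (r : ℂ) * circ t, hnot t⟩ with hγ
  have hγc : Continuous γ := by
    refine Continuous.subtype_mk ?_ _
    exact continuous_const.add (continuous_const.mul circ_continuous)
  have hγp : ∀ t, γ (t + 1) = γ t := fun t => Subtype.ext (by
    show (m : ℂ) + (r : ℂ) * circ (t + 1) = (m : ℂ) + (r : ℂ) * circ t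
    rw [circ_periodic])
  -- the homotopy
  have hcC : (c : ℂ) ∈ CC := ⟨c, hc, rfl⟩
  have hΓ : Continuous fun p : unitInterval × ℝ => (h p.1 (γ p.2)).1 - (c : ℂ) := by
    have e := hcont.comp (continuous_fst.prodMk (hγc.comp continuous_snd) :
      Continuous fun p : unitInterval × ℝ => (p.1, γ p.2))
    exact (continuous_val.comp e).sub continuous_const
  have hne0 : ∀ (s : unitInterval) (t : ℝ), (h s (γ t)).1 - (c : ℂ) ≠ 0 := by
    intro s t he
    rw [sub_eq_zero] at he
    exact (h s (γ t)).2 (he ▸ hcC)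
  have w0 : HasWinding (fun t => (h 0 (γ t)).1 - (c : ℂ)) 1 := by
    rw [h0]
    have e : (fun t => ((1 : Surf CC ≃ₜ Surf CC) (γ t)).1 - (c : ℂ)) =
        fun t => ((m - c : ℝ) : ℂ) + (r : ℂ) * circ t := by
      funext t
      show (m : ℂ) + (r : ℂ) * circ t - c = _
      push_cast
      ring
    rw [e]
    refine hasWinding_circle ?_
    rw [Complex.norm_real, Real.norm_eq_abs, abs_lt, hm, hr]
    constructor <;> linarith
  have w1 : HasWinding (fun t => (h 1 (γ t)).1 - (c : ℂ)) 1 :=
    HasWinding.homotopy (Γ := fun s t => (h s (γ t)).1 - (c : ℂ)) hΓ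
      (fun s t => by simp only [hγp]) hne0 w0
  rw [h1] at w1
  have hbound : ∀ t, a ≤ (γ t).1.re ∧ (γ t).1.re ≤ b := by
    intro t
    have e : (γ t).1.re = m + r * (circ t).re := hre t
    have e4 := hcirc t
    have e5 : |(circ t).re| ≤ 1 := by
      rw [← sq_le_one_iff_abs_le_one]
      nlinarith [sq_nonneg (circ t).im]
    obtain ⟨e6, e7⟩ := abs_le.1 e5
    rw [e]
    constructor
    · nlinarith
    · nlinarith
  have w2 : HasWinding (fun t => (surf σ (γ t)).1 - (c : ℂ)) 0 := by
    have cc : Continuous fun t => (surf σ (γ t)).1 - (c : ℂ) :=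
      (continuous_val.comp ((surf σ).continuous.comp hγc)).sub continuous_const
    have pp : ∀ t, (surf σ (γ (t + 1))).1 - (c : ℂ) =
        (surf σ (γ t)).1 - (c : ℂ) := fun t => by rw [hγp]
    rcases lt_or_gt_of_ne hne with hlt | hgt
    · refine hasWinding_of_re_neg cc pp (fun t => ?_)
      rw [Complex.sub_re, surf_re, Complex.ofReal_re]
      have e1 := hmono.monotone (hbound t).2
      have e2 := (abs_lt.1 hFb).2
      rw [abs_of_neg (by linarith)] at e2
      linarith
    · refine hasWinding_of_re_pos cc pp (fun t => ?_)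
      rw [Complex.sub_re, surf_re, Complex.ofReal_re]
      have e1 := hmono.monotone (hbound t).1
      have e2 := (abs_lt.1 hFa).1
      rw [abs_of_pos (by linarith)] at e2
      linarith
  have h01 : (1 : ℤ) = 0 := HasWinding.unique (fun t => by
    rw [← h1]
    exact hne0 1 t) w1 w2
  norm_num at h01

/-- the homomorphism to the mapping class group -/
noncomputable def Phi : (D ≃o D) →* MapGroup CC :=
  (QuotientGroup.mk' ((HomeoZero CC).subgroupOf (HomeoPlus CC))).comp Psi

theorem Phi_injective : Function.Injective Phi := by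
  rw [injective_iff_map_eq_one]
  intro σ hσ
  have h1 : Psi σ ∈ (HomeoZero CC).subgroupOf (HomeoPlus CC) := (QuotientGroup.eq_one_iff _).1 hσ
  have h2 : IsotopicToId (surf σ) := h1
  refine DFunLike.ext σ 1 fun d => ?_
  have h3 := fix_of_isotopic h2 (lft_mem d)
  rw [F_lft] at h3
  exact lft_strictMono.injective h3

/-- the subgroup of the mapping class group -/
noncomputable def HH : Subgroup (MapGroup CC) := (Phi.comp Gam.subtype).range

/-- it is isomorphic to `Gam` -/
noncomputable def iso : Gam ≃* HH :=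
  MonoidHom.ofInjective (f := Phi.comp Gam.subtype) (Phi_injective.comp Gam.subtype_injective)

theorem HH_not_amenable : ¬ Amenable HH := fun h => gam_not_amenable (h.of_equiv iso)

theorem HH_quasi (φ : HH → ℝ) (hφ : IsHomogeneousQM φ) (g h : HH) : φ (g * h) = φ g + φ h := by
  obtain ⟨⟨K, hK⟩, hn⟩ := hφ
  have key := gam_quasi (φ := fun x => φ (iso x)) (K := K)
    (fun x y => by simpa using hK (iso x) (iso y))
    (fun x n => by simpa using hn (iso x) n) (iso.symm g) (iso.symm h)
  simpa using key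

theorem final : ∃ C : Set ℂ, IsCantorSet C ∧ ∃ H : Subgroup (MapGroup C),
    ¬ Amenable H ∧ ∀ φ : H → ℝ, IsHomogeneousQM φ → ∀ g h : H, φ (g * h) = φ g + φ h :=
  ⟨CC, isCantorSet_CC, HH, HH_not_amenable, HH_quasi⟩

end Pool.Agent.Q139.Cantor
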