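import Pool.Agent.Q139.Cantor.Defs

/-!
# A Cantor set in the line with an action of the automorphisms of a countable dense order
-/

set_option autoImplicit false

namespace Pool.Agent.Q139.Cantor

open Topology Filter Set

variable {D : Type} [Encodable D] [LinearOrder D]

/-- the weights -/
noncomputable def w (d : D) : ℝ := (1 / 2) ^ Encodable.encode d

theorem w_pos (d : D) : 0 < w d := by unfold w; positivity

theorem w_summable : Summable (w (D := D)) := summable_geometric_two_encode

theorem w_summable_equiv (σ : D ≃o D) : Summable (fun d => w (σ d)) :=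
  σ.toEquiv.summable_iff.2 w_summable

variable (D) in
/-- the total weight -/
noncomputable def W : ℝ := ∑' d : D, w d

/-- the left end point of the gap of `d` -/
noncomputable def lft (d : D) : ℝ := ∑' e : D, if e < d then w e else 0

/-- the right end point of the gap of `d` -/
noncomputable def rgt (d : D) : ℝ := lft d + w d

theorem summable_of_le (f : D → ℝ) (h0 : ∀ d, 0 ≤ f d) (h1 : ∀ d, f d ≤ w d) : Summable f :=
  Summable.of_nonneg_of_le h0 h1 w_summable

theorem lft_summable (d : D) : Summable (fun e : D => if e < d then w e else 0) := by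
  refine summable_of_le _ (fun e => ?_) (fun e => ?_)
  · split_ifs
    · exact (w_pos e).le
    · exact le_rfl
  · split_ifs
    · exact le_rfl
    · exact (w_pos e).le

theorem lft_nonneg (d : D) : 0 ≤ lft d := by
  refine tsum_nonneg fun e => ?_
  split_ifs
  · exact (w_pos e).le
  · exact le_rfl

theorem single_summable (d : D) (c : ℝ) : Summable (fun e : D => if e = d then c else 0) :=
  (hasSum_ite_eq d c).summable

theorem rgt_eq (d : D) : rgt d = ∑' e : D, if e ≤ d then w e else 0 := by
  have h1 : w d = ∑' e : D, if e = d then w d else 0 := (tsum_ite_eq d (fun _ => w d)).symm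
  rw [rgt, lft, h1, ← (lft_summable d).tsum_add (single_summable d _)]
  refine tsum_congr fun e => ?_
  rcases lt_trichotomy e d with h | h | h
  · rw [if_pos h, if_neg h.ne, if_pos h.le, add_zero]
  · rw [if_neg (by rw [h]; exact lt_irrefl _), if_pos h, if_pos h.le, zero_add, h]
  · rw [if_neg (not_lt.2 h.le), if_neg h.ne', if_neg (not_le.2 h), add_zero]

theorem rgt_summable (d : D) : Summable (fun e : D => if e ≤ d then w e else 0) := by
  refine summable_of_le _ (fun e => ?_) (fun e => ?_)
  · split_ifs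
    · exact (w_pos e).le
    · exact le_rfl
  · split_ifs
    · exact le_rfl
    · exact (w_pos e).le

theorem lft_lt_rgt (d : D) : lft d < rgt d := by
  have := w_pos d
  rw [rgt]
  linarith

theorem rgt_le_lft {d e : D} (h : d < e) : rgt d ≤ lft e := by
  rw [rgt_eq, lft]
  refine (rgt_summable d).tsum_le_tsum (fun x => ?_) (lft_summable e)
  by_cases hx : x ≤ d
  · rw [if_pos hx, if_pos (lt_of_le_of_lt hx h)]
  · rw [if_neg hx]
    split_ifs
    · exact (w_pos x).le
    · exact le_rfl

theorem rgt_le_W (d : D) : rgt d ≤ W D := by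
  rw [rgt_eq, W]
  refine (rgt_summable d).tsum_le_tsum (fun x => ?_) w_summable
  split_ifs
  · exact le_rfl
  · exact (w_pos x).le

theorem lft_strictMono : StrictMono (lft (D := D)) := fun _ _ h =>
  (lft_lt_rgt _).trans_le (rgt_le_lft h)

/-- the coordinate functions -/
noncomputable def s (d : D) (x : ℝ) : ℝ := max 0 (min 1 ((x - lft d) / w d))

theorem s_nonneg (d : D) (x : ℝ) : 0 ≤ s d x := le_max_left _ _

theorem s_le_one (d : D) (x : ℝ) : s d x ≤ 1 := max_le zero_le_one (min_le_left _ _)

theorem s_mono (d : D) : Monotone (s d) := by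
  intro x y h
  unfold s
  have := w_pos d
  gcongr

theorem s_continuous (d : D) : Continuous (s d) := by
  unfold s
  fun_prop

theorem s_eq_zero {d : D} {x : ℝ} : s d x = 0 ↔ x ≤ lft d := by
  unfold s
  have := w_pos d
  constructor
  · intro h
    by_contra hcon
    push Not at hcon
    have h1 : 0 < (x - lft d) / w d := div_pos (by linarith) this
    have h2 : 0 < min 1 ((x - lft d) / w d) := lt_min one_pos h1
    rw [max_eq_right h2.le] at h
    linarith
  · intro h
    rw [max_eq_left]
    exact (min_le_right _ _).trans (div_nonpos_of_nonpos_of_nonneg (by linarith) this.le)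

theorem s_eq_one {d : D} {x : ℝ} : s d x = 1 ↔ rgt d ≤ x := by
  unfold s rgt
  have := w_pos d
  constructor
  · intro h
    by_contra hcon
    push Not at hcon
    have h1 : (x - lft d) / w d < 1 := by rw [div_lt_one this]; linarith
    have h2 : max 0 (min 1 ((x - lft d) / w d)) < 1 :=
      max_lt one_pos ((min_le_right _ _).trans_lt h1)
    linarith
  · intro h
    have h1 : 1 ≤ (x - lft d) / w d := by rw [le_div_iff₀ this]; linarith
    rw [min_eq_left h1, max_eq_right zero_le_one]

theorem s_eq_mid {d : D} {x : ℝ} (h1 : lft d ≤ x) (h2 : x ≤ rgt d) :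
    s d x = (x - lft d) / w d := by
  unfold s
  unfold rgt at h2
  have := w_pos d
  rw [min_eq_right, max_eq_right]
  · exact div_nonneg (by linarith) this.le
  · rw [div_le_one this]; linarith

/-- the coordinates are those of a cut -/
theorem s_cut {d e : D} (h : d < e) {x : ℝ} (hx : 0 < s e x) : s d x = 1 := by
  rw [s_eq_one]
  by_contra hcon
  push Not at hcon
  have : s e x = 0 := s_eq_zero.2 (hcon.le.trans (rgt_le_lft h))
  linarith

theorem ws_summable (σ : D ≃o D) (x : ℝ) : Summable (fun d => w (σ d) * s d x) :=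
  Summable.of_nonneg_of_le (fun d => mul_nonneg (w_pos _).le (s_nonneg _ _))
    (fun d => mul_le_of_le_one_right (w_pos _).le (s_le_one _ _)) (w_summable_equiv σ)

/-- the homeomorphism of the line induced by an automorphism of the order -/
noncomputable def F (σ : D ≃o D) (x : ℝ) : ℝ :=
  min x 0 + max (x - W D) 0 + ∑' d, w (σ d) * s d x

theorem F_mono (σ : D ≃o D) : Monotone (F σ) := by
  intro x y h
  unfold F
  have h1 : ∑' d, w (σ d) * s d x ≤ ∑' d, w (σ d) * s d y :=
    (ws_summable σ x).tsum_le_tsum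
      (fun d => mul_le_mul_of_nonneg_left (s_mono d h) (w_pos _).le) (ws_summable σ y)
  have h2 : min x 0 ≤ min y 0 := min_le_min_right _ h
  have h3 : max (x - W D) 0 ≤ max (y - W D) 0 := max_le_max_right _ (by linarith)
  linarith

theorem sum_equiv (σ : D ≃o D) : ∑' d, w (σ d) = W D := σ.toEquiv.tsum_eq w

theorem W_nonneg : 0 ≤ W D := tsum_nonneg fun d => (w_pos d).le

theorem F_of_nonpos (σ : D ≃o D) {x : ℝ} (h : x ≤ 0) : F σ x = x := by
  unfold F
  have h0 : ∀ d : D, s d x = 0 := fun d => s_eq_zero.2 (h.trans (lft_nonneg d))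
  rw [min_eq_left h, max_eq_right (by linarith [W_nonneg (D := D)])]
  simp only [h0, mul_zero, tsum_zero, add_zero]

theorem F_of_ge (σ : D ≃o D) {x : ℝ} (h : W D ≤ x) : F σ x = x := by
  unfold F
  have h0 : ∀ d : D, s d x = 1 := fun d => s_eq_one.2 ((rgt_le_W d).trans h)
  rw [min_eq_right ((W_nonneg (D := D)).trans h), max_eq_left (by linarith)]
  simp only [h0, mul_one, sum_equiv]
  ring

theorem F_mem (σ : D ≃o D) {x : ℝ} (h0 : 0 ≤ x) (h1 : x ≤ W D) : 0 ≤ F σ x ∧ F σ x ≤ W D := by
  have a := F_mono σ h0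
  have b := F_mono σ h1
  rw [F_of_nonpos σ le_rfl] at a
  rw [F_of_ge σ le_rfl] at b
  exact ⟨a, b⟩

theorem lft_equiv (σ : D ≃o D) (d : D) : lft (σ d) = ∑' e, if e < d then w (σ e) else 0 := by
  rw [lft, ← σ.toEquiv.tsum_eq (fun e => if e < σ d then w e else 0)]
  refine tsum_congr fun e => ?_
  simp only [RelIso.coe_fn_toEquiv, OrderIso.lt_iff_lt]

theorem lft_summable_equiv (σ : D ≃o D) (d : D) :
    Summable (fun e : D => if e < d then w (σ e) else 0) :=
  Summable.of_nonneg_of_le (fun e => by
    split_ifs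
    · exact (w_pos _).le
    · exact le_rfl) (fun e => by
    split_ifs
    · exact le_rfl
    · exact (w_pos _).le) (w_summable_equiv σ)

theorem F_lower (σ : D ≃o D) {d : D} {x : ℝ} (h : 0 < s d x) :
    lft (σ d) + w (σ d) * s d x ≤ F σ x := by
  have hx : 0 ≤ x := by
    by_contra hcon
    push Not at hcon
    have := s_eq_zero.2 (hcon.le.trans (lft_nonneg d))
    linarith
  unfold F
  rw [min_eq_right hx, zero_add]
  have h1 : (0 : ℝ) ≤ max (x - W D) 0 := le_max_right _ _
  have h2 : lft (σ d) + w (σ d) * s d x ≤ ∑' e, w (σ e) * s e x := by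
    rw [lft_equiv]
    have h3 : w (σ d) * s d x = ∑' e : D, if e = d then w (σ d) * s d x else 0 :=
      (tsum_ite_eq d (fun _ => w (σ d) * s d x)).symm
    rw [h3, ← (lft_summable_equiv σ d).tsum_add (single_summable d _)]
    refine ((lft_summable_equiv σ d).add (single_summable d _)).tsum_le_tsum (fun e => ?_)
      (ws_summable σ x)
    rcases lt_trichotomy e d with he | he | he
    · rw [if_pos he, if_neg he.ne, add_zero, s_cut he h, mul_one]
    · rw [if_neg (by rw [he]; exact lt_irrefl _), if_pos he, zero_add, he]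
    · rw [if_neg (not_lt.2 he.le), if_neg he.ne', add_zero]
      exact mul_nonneg (w_pos _).le (s_nonneg _ _)
  linarith

theorem F_upper (σ : D ≃o D) {d : D} {x : ℝ} (h : s d x < 1) :
    F σ x ≤ lft (σ d) + w (σ d) * s d x := by
  have hx : x ≤ W D := by
    by_contra hcon
    push Not at hcon
    have := s_eq_one.2 ((rgt_le_W d).trans hcon.le)
    linarith
  unfold F
  rw [max_eq_right (by linarith), add_zero]
  have h1 : min x 0 ≤ 0 := min_le_right _ _
  have h2 : ∑' e, w (σ e) * s e x ≤ lft (σ d) + w (σ d) * s d x := by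
    rw [lft_equiv]
    have h3 : w (σ d) * s d x = ∑' e : D, if e = d then w (σ d) * s d x else 0 :=
      (tsum_ite_eq d (fun _ => w (σ d) * s d x)).symm
    rw [h3, ← (lft_summable_equiv σ d).tsum_add (single_summable d _)]
    refine (ws_summable σ x).tsum_le_tsum (fun e => ?_)
      ((lft_summable_equiv σ d).add (single_summable d _))
    rcases lt_trichotomy e d with he | he | he
    · rw [if_pos he, if_neg he.ne, add_zero]
      exact mul_le_of_le_one_right (w_pos _).le (s_le_one _ _)
    · rw [if_neg (by rw [he]; exact lt_irrefl _), if_pos he, zero_add, he]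
    · rw [if_neg (not_lt.2 he.le), if_neg he.ne', add_zero]
      have : s e x = 0 := by
        by_contra hne
        have h4 := s_cut he (lt_of_le_of_ne (s_nonneg e x) (Ne.symm hne))
        linarith
      rw [this, mul_zero]
  linarith

theorem s_F (σ : D ≃o D) (d : D) (x : ℝ) : s (σ d) (F σ x) = s d x := by
  have hw := w_pos (σ d)
  rcases (s_nonneg d x).eq_or_lt with h | h
  · rw [← h, s_eq_zero]
    have := F_upper σ (d := d) (x := x) (by rw [← h]; exact one_pos)
    rw [← h, mul_zero, add_zero] at this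
    exact this
  · have h1 := F_lower σ h
    rcases (s_le_one d x).eq_or_lt with h2 | h2
    · rw [h2, s_eq_one]
      rw [h2, mul_one] at h1
      exact h1
    · have h3 := F_upper σ h2
      have h4 : F σ x = lft (σ d) + w (σ d) * s d x := le_antisymm h3 h1
      have h5 : w (σ d) * s d x ≤ w (σ d) := mul_le_of_le_one_right hw.le h2.le
      have h6 : 0 ≤ w (σ d) * s d x := mul_nonneg hw.le h.le
      rw [s_eq_mid (by rw [h4]; linarith) (by rw [h4, rgt]; linarith), h4]
      field_simp
      ring

/-- the length of the part of a gap between two points -/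
theorem ws_sub (d : D) {x y : ℝ} (h : x ≤ y) :
    w d * (s d y - s d x) = max 0 (min y (rgt d) - max x (lft d)) := by
  have hw := w_pos d
  have key : ∀ z, w d * s d z = max 0 (min (w d) (z - lft d)) := by
    intro z
    unfold s
    rw [mul_max_of_nonneg _ _ hw.le, mul_min_of_nonneg _ _ hw.le, mul_zero, mul_one,
      mul_div_cancel₀ _ hw.ne']
  rw [mul_sub, key, key]
  unfold rgt
  simp only [max_def, min_def]
  split_ifs <;> linarith

open MeasureTheory in
theorem sum_le {x y : ℝ} (h : x ≤ y) (A : Finset D) : ∑ d ∈ A, w d * (s d y - s d x) ≤ y - x := by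
  have h1 : ∀ d : D, ENNReal.ofReal (w d * (s d y - s d x)) =
      volume (Ioc (max x (lft d)) (min y (rgt d))) := by
    intro d
    rw [Real.volume_Ioc, ws_sub d h]
    rcases le_total 0 (min y (rgt d) - max x (lft d)) with h | h
    · rw [max_eq_right h]
    · rw [max_eq_left h, ENNReal.ofReal_zero, ENNReal.ofReal_of_nonpos h]
  have h2 : ∀ d ∈ A, 0 ≤ w d * (s d y - s d x) := fun d _ =>
    mul_nonneg (w_pos d).le (sub_nonneg.2 (s_mono d h))
  have h3 : ENNReal.ofReal (∑ d ∈ A, w d * (s d y - s d x)) ≤ ENNReal.ofReal (y - x) := by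
    rw [ENNReal.ofReal_sum_of_nonneg h2, Finset.sum_congr rfl fun d _ => h1 d,
      ← measure_biUnion_finset]
    · rw [← Real.volume_Ioc]
      refine measure_mono ?_
      intro z hz
      simp only [mem_iUnion, mem_Ioc, max_lt_iff, le_min_iff] at hz
      obtain ⟨d, _, hz⟩ := hz
      exact ⟨hz.1.1, hz.2.1⟩
    · intro d _ e _ hde
      rw [Function.onFun, Set.disjoint_left]
      intro z hz hz'
      simp only [mem_Ioc, max_lt_iff, le_min_iff] at hz hz'
      rcases lt_or_gt_of_ne hde with h | h
      · have := rgt_le_lft h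
        linarith [hz.2.2, hz'.1.2]
      · have := rgt_le_lft h
        linarith [hz'.2.2, hz.1.2]
    · exact fun d _ => measurableSet_Ioc
  exact (ENNReal.ofReal_le_ofReal_iff (by linarith)).1 h3

theorem w_s_summable (x : ℝ) : Summable (fun d : D => w d * s d x) :=
  summable_of_le _ (fun d => mul_nonneg (w_pos _).le (s_nonneg _ _))
    (fun d => mul_le_of_le_one_right (w_pos _).le (s_le_one _ _))

theorem tsum_sub_le {x y : ℝ} (h : x ≤ y) :
    ∑' d : D, w d * s d y - ∑' d : D, w d * s d x ≤ y - x := by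
  rw [← (w_s_summable y).tsum_sub (w_s_summable x)]
  refine ((w_s_summable y).sub (w_s_summable x)).tsum_le_of_sum_le fun A => ?_
  refine (le_of_eq ?_).trans (sum_le h A)
  exact Finset.sum_congr rfl fun d _ => by ring

theorem tsum_eq {x : ℝ} (h0 : 0 ≤ x) (h1 : x ≤ W D) : ∑' d : D, w d * s d x = x := by
  have a := tsum_sub_le (D := D) h0
  have b := tsum_sub_le (D := D) h1
  have e0 : ∑' d : D, w d * s d 0 = 0 := by
    have h0 : ∀ d : D, s d 0 = 0 := fun d => s_eq_zero.2 (lft_nonneg d)
    simp only [h0, mul_zero, tsum_zero]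
  have e1 : ∑' d : D, w d * s d (W D) = W D := by
    have h0 : ∀ d : D, s d (W D) = 1 := fun d => s_eq_one.2 (rgt_le_W d)
    simp only [h0, mul_one]
    rfl
  rw [e0] at a
  rw [e1] at b
  linarith

theorem F_one (x : ℝ) : F (1 : D ≃o D) x = x := by
  rcases le_total x 0 with h | h
  · exact F_of_nonpos _ h
  · rcases le_total (W D) x with h' | h'
    · exact F_of_ge _ h'
    · unfold F
      rw [min_eq_right h, max_eq_right (by linarith), zero_add, zero_add]
      exact tsum_eq h h'

theorem F_comp (τ σ : D ≃o D) (x : ℝ) : F τ (F σ x) = F (τ * σ) x := by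
  rcases le_total x 0 with h | h
  · rw [F_of_nonpos σ h, F_of_nonpos _ h, F_of_nonpos _ h]
  · rcases le_total (W D) x with h' | h'
    · rw [F_of_ge σ h', F_of_ge _ h', F_of_ge _ h']
    · obtain ⟨a, b⟩ := F_mem σ h h'
      rw [show F τ (F σ x) = min (F σ x) 0 + max (F σ x - W D) 0 +
          ∑' d, w (τ d) * s d (F σ x) from rfl,
        show F (τ * σ) x = min x 0 + max (x - W D) 0 + ∑' d, w ((τ * σ) d) * s d x from rfl,
        min_eq_right a, max_eq_right (by linarith), min_eq_right h,
        max_eq_right (by linarith), ← σ.toEquiv.tsum_eq (fun d => w (τ d) * s d (F σ x))]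
      congr 1
      refine tsum_congr fun d => ?_
      simp only [RelIso.coe_fn_toEquiv, s_F]
      rfl

/-- the induced automorphism of the line -/
noncomputable def Fiso (σ : D ≃o D) : ℝ ≃o ℝ where
  toFun := F σ
  invFun := F σ⁻¹
  left_inv x := by rw [F_comp, inv_mul_cancel, F_one]
  right_inv x := by rw [F_comp, mul_inv_cancel, F_one]
  map_rel_iff' := by
    intro x y
    simp only [Equiv.coe_fn_mk]
    constructor
    · intro h
      have := F_mono σ⁻¹ h
      rwa [F_comp, F_comp, inv_mul_cancel, F_one, F_one] at this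
    · exact fun h => F_mono σ h

@[simp] theorem Fiso_apply (σ : D ≃o D) (x : ℝ) : Fiso σ x = F σ x := rfl

theorem F_lft (σ : D ≃o D) (d : D) : F σ (lft d) = lft (σ d) := by
  have h0 : 0 ≤ lft d := lft_nonneg d
  have h1 : lft d ≤ W D := (lft_lt_rgt d).le.trans (rgt_le_W d)
  rw [lft_equiv, F, min_eq_right h0, max_eq_right (by linarith), zero_add, zero_add]
  refine tsum_congr fun e => ?_
  by_cases he : e < d
  · rw [if_pos he, s_eq_one.2 (rgt_le_lft he), mul_one]
  · rw [if_neg he, s_eq_zero.2 (lft_strictMono.monotone (not_lt.1 he)), mul_zero]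

variable (D) in
/-- the Cantor set in the line -/
def K : Set ℝ := {x | 0 ≤ x ∧ x ≤ W D ∧ ∀ d : D, s d x = 0 ∨ s d x = 1}

theorem lft_mem (d : D) : lft d ∈ K D := by
  refine ⟨lft_nonneg d, (lft_lt_rgt d).le.trans (rgt_le_W d), fun e => ?_⟩
  rcases lt_or_ge e d with h | h
  · exact Or.inr (s_eq_one.2 (rgt_le_lft h))
  · exact Or.inl (s_eq_zero.2 (lft_strictMono.monotone h))

theorem rgt_mem (d : D) : rgt d ∈ K D := by
  refine ⟨(lft_nonneg d).trans (lft_lt_rgt d).le, rgt_le_W d, fun e => ?_⟩
  rcases lt_or_ge d e with h | h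
  · exact Or.inl (s_eq_zero.2 (rgt_le_lft h))
  · refine Or.inr (s_eq_one.2 ?_)
    rcases h.eq_or_lt with h | h
    · rw [h]
    · exact (rgt_le_lft h).trans (lft_lt_rgt d).le

theorem zero_mem : (0 : ℝ) ∈ K D :=
  ⟨le_rfl, W_nonneg, fun d => Or.inl (s_eq_zero.2 (lft_nonneg d))⟩

theorem W_mem : W D ∈ K D :=
  ⟨W_nonneg, le_rfl, fun d => Or.inr (s_eq_one.2 (rgt_le_W d))⟩

theorem K_closed : IsClosed (K D) := by
  have h : K D = Icc 0 (W D) ∩ ⋂ d : D, {x | s d x = 0 ∨ s d x = 1} := by
    ext x
    simp only [K, mem_setOf_eq, mem_inter_iff, mem_Icc, mem_iInter]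
    tauto
  rw [h]
  refine isClosed_Icc.inter (isClosed_iInter fun d => ?_)
  exact (isClosed_eq (s_continuous d) continuous_const).union
    (isClosed_eq (s_continuous d) continuous_const)

theorem K_compact : IsCompact (K D) :=
  isCompact_Icc.of_isClosed_subset K_closed (fun _ hx => ⟨hx.1, hx.2.1⟩)

theorem F_mem_K (σ : D ≃o D) {x : ℝ} (h : x ∈ K D) : F σ x ∈ K D := by
  obtain ⟨h0, h1, h2⟩ := h
  obtain ⟨a, b⟩ := F_mem σ h0 h1
  refine ⟨a, b, fun d => ?_⟩
  have := s_F σ (σ.symm d) x
  rw [OrderIso.apply_symm_apply] at this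
  rw [this]
  exact h2 _

theorem F_mem_K_iff (σ : D ≃o D) {x : ℝ} : F σ x ∈ K D ↔ x ∈ K D := by
  refine ⟨fun h => ?_, F_mem_K σ⟩
  have := F_mem_K σ⁻¹ h
  rwa [F_comp, inv_mul_cancel, F_one] at this

/-- between two points of the Cantor set there is a gap -/
theorem exists_gap {x y : ℝ} (hx : x ∈ K D) (hy : y ∈ K D) (h : x < y) :
    ∃ d : D, x ≤ lft d ∧ rgt d ≤ y := by
  by_contra hcon
  push Not at hcon
  have h1 : ∀ d : D, s d y = s d x := by
    intro d
    rcases hx.2.2 d with a | a
    · rcases hy.2.2 d with b | b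
      · rw [a, b]
      · exact absurd (s_eq_one.1 b) (not_le.2 (hcon d (s_eq_zero.1 a)))
    · have := s_mono d h.le
      rw [a] at this ⊢
      exact le_antisymm (s_le_one _ _) this
  have e1 := tsum_eq hx.1 hx.2.1
  have e2 := tsum_eq hy.1 hy.2.1
  simp only [h1] at e2
  linarith

/-- the complement of the Cantor set is dense -/
theorem exists_notMem {x y : ℝ} (h : x < y) : ∃ z, x < z ∧ z < y ∧ z ∉ K D := by
  by_cases h1 : (x + (y - x) / 3) ∈ K D
  · by_cases h2 : (x + 2 * (y - x) / 3) ∈ K D
    · obtain ⟨d, ha, hb⟩ := exists_gap h1 h2 (by linarith)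
      have hw := w_pos d
      have hr : rgt d = lft d + w d := rfl
      refine ⟨lft d + w d / 2, by linarith, by linarith, fun hz => ?_⟩
      have e : s d (lft d + w d / 2) = 1 / 2 := by
        rw [s_eq_mid (by linarith) (by rw [rgt]; linarith)]
        field_simp
        ring
      rcases hz.2.2 d with a | a <;> rw [e] at a <;> norm_num at a
    · exact ⟨_, by linarith, by linarith, h2⟩
  · exact ⟨_, by linarith, by linarith, h1⟩

/-- the Cantor set has no isolated points -/
theorem exists_near [DenselyOrdered D] [NoMinOrder D] [NoMaxOrder D] [Nonempty D] {x : ℝ}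
    (hx : x ∈ K D) {ε : ℝ} (hε : 0 < ε) : ∃ y ∈ K D, y ≠ x ∧ |y - x| < ε := by
  by_contra hcon
  push Not at hcon
  have hiso : ∀ y ∈ K D, |y - x| < ε → y = x := by
    intro y hy hy1
    by_contra hne
    exact absurd hy1 (not_lt.2 (hcon y hy hne))
  have hW : 0 < W D := by
    obtain ⟨d⟩ := ‹Nonempty D›
    exact lt_of_lt_of_le ((lft_nonneg d).trans_lt (lft_lt_rgt d)) (rgt_le_W d)
  have notK : ∀ y, y ∉ K D → 0 ≤ y → y ≤ W D → ∃ d : D, lft d < y ∧ y < rgt d := by
    intro y hy h0 h1
    by_contra hc
    push Not at hc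
    refine hy ⟨h0, h1, fun d => ?_⟩
    rcases le_or_gt y (lft d) with h | h
    · exact Or.inl (s_eq_zero.2 h)
    · exact Or.inr (s_eq_one.2 (hc d h))
  have hA : x < W D → ∃ e : D, x = lft e := by
    intro hlt
    set y := min (x + ε / 2) (W D) with hy
    have y1 : x < y := lt_min (by linarith) hlt
    have y2 : y ≤ x + ε / 2 := min_le_left _ _
    have y3 : y ≤ W D := min_le_right _ _
    have hyK : y ∉ K D := fun h => y1.ne' (hiso y h (by rw [abs_lt]; constructor <;> linarith))
    obtain ⟨d, h1, h2⟩ := notK y hyK (hx.1.trans y1.le) y3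
    have h3 : x ≤ lft d := by
      rcases hx.2.2 d with a | a
      · exact s_eq_zero.1 a
      · have := s_eq_one.1 a
        linarith
    exact ⟨d, (hiso _ (lft_mem d) (by rw [abs_lt]; constructor <;> linarith)).symm⟩
  have hB : 0 < x → ∃ e : D, x = rgt e := by
    intro hlt
    set y := max (x - ε / 2) 0 with hy
    have y1 : y < x := max_lt (by linarith) hlt
    have y2 : x - ε / 2 ≤ y := le_max_left _ _
    have y3 : 0 ≤ y := le_max_right _ _
    have hyK : y ∉ K D := fun h => y1.ne (hiso y h (by rw [abs_lt]; constructor <;> linarith))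
    obtain ⟨d, h1, h2⟩ := notK y hyK y3 (y1.le.trans hx.2.1)
    have h3 : rgt d ≤ x := by
      rcases hx.2.2 d with a | a
      · have := s_eq_zero.1 a
        linarith
      · exact s_eq_one.1 a
    exact ⟨d, (hiso _ (rgt_mem d) (by rw [abs_lt]; constructor <;> linarith)).symm⟩
  rcases hx.2.1.lt_or_eq with h | h
  · obtain ⟨e, he⟩ := hA h
    obtain ⟨d', hd'⟩ := exists_lt e
    have hx0 : 0 < x := by
      rw [he]
      exact ((lft_nonneg d').trans_lt (lft_lt_rgt d')).trans_le (rgt_le_lft hd')
    obtain ⟨d, hd⟩ := hB hx0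
    have hde : d < e := by
      by_contra hc
      push Not at hc
      have := lft_strictMono.monotone hc
      linarith [lft_lt_rgt d]
    obtain ⟨f, hf1, hf2⟩ := exists_between hde
    have := rgt_le_lft hf1
    have := rgt_le_lft hf2
    linarith [lft_lt_rgt f]
  · obtain ⟨d, hd⟩ := hB (by rw [h]; exact hW)
    obtain ⟨d', hd'⟩ := exists_gt d
    have := rgt_le_lft hd'
    linarith [lft_lt_rgt d', rgt_le_W d']

end Pool.Agent.Q139.Cantor
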