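import Mathlib

/-!
# Winding numbers of loops in the punctured plane
-/

set_option autoImplicit false

namespace Pool.Agent.Q139.Cantor

open Complex Topology Filter

/-- The loop `γ : ℝ → ℂ \ {0}` (of period one) has winding number `n` about the origin: there is
a continuous choice `θ` of the argument of `γ` along the loop, and it increases by `2πn` over a
period. -/
def HasWinding (γ : ℝ → ℂ) (n : ℤ) : Prop :=
  ∃ θ : ℝ → ℝ, Continuous θ ∧ (∀ t, γ t = (‖γ t‖ : ℂ) * Complex.exp ((θ t : ℂ) * I)) ∧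
    ∀ t, θ (t + 1) = θ t + 2 * Real.pi * n

/-- uniqueness of the winding number -/
theorem HasWinding.unique {γ : ℝ → ℂ} (h0 : ∀ t, γ t ≠ 0) {n m : ℤ} (hn : HasWinding γ n)
    (hm : HasWinding γ m) : n = m := by
  obtain ⟨θ, hθc, hθ, hθ1⟩ := hn
  obtain ⟨η, hηc, hη, hη1⟩ := hm
  have h1 : ∀ t, ∃ k : ℤ, θ t - η t = k * (2 * Real.pi) := by
    intro t
    have e1 : Complex.exp ((θ t : ℂ) * I) = Complex.exp ((η t : ℂ) * I) := by
      have h2 : (‖γ t‖ : ℂ) ≠ 0 := by
        rw [Ne, Complex.ofReal_eq_zero, norm_eq_zero]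
        exact h0 t
      exact mul_left_cancel₀ h2 ((hθ t).symm.trans (hη t))
    rw [Complex.exp_eq_exp_iff_exists_int] at e1
    obtain ⟨k, hk⟩ := e1
    refine ⟨k, ?_⟩
    have h3 : ((θ t : ℂ)) = ((η t + k * (2 * Real.pi) : ℝ) : ℂ) := by
      push_cast
      have : ((θ t : ℂ)) * I = ((η t : ℂ) + k * (2 * Real.pi)) * I := by rw [hk]; ring
      exact mul_right_cancel₀ I_ne_zero this
    have h4 := Complex.ofReal_injective h3
    linarith
  choose k hk using h1
  have hpi : (2 * Real.pi) ≠ 0 := by positivity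
  have hkc : Continuous k := by
    rw [Int.isClosedEmbedding_coe_real.isEmbedding.continuous_iff]
    have : (fun t => ((k t : ℤ) : ℝ)) = fun t => (θ t - η t) / (2 * Real.pi) := by
      funext t
      rw [hk t]
      field_simp
    show Continuous (fun t => ((k t : ℤ) : ℝ))
    rw [this]
    fun_prop
  have hconst : k 1 = k 0 := PreconnectedSpace.constant inferInstance hkc
  have a := hθ1 0
  have b := hη1 0
  rw [zero_add] at a b
  have e := hk 1
  have e0 := hk 0
  rw [a, b, hconst] at e
  have h5 : (2 * Real.pi) * ((n : ℝ) - m) = 0 := by linarith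
  have h6 := (mul_eq_zero.1 h5).resolve_left hpi
  have h7 : (n : ℝ) = m := by linarith
  exact_mod_cast h7

/-- loops which are nowhere antipodal have the same winding number -/
theorem HasWinding.congr {γ δ : ℝ → ℂ} (hγ : Continuous γ) (hδ : Continuous δ)
    (pγ : ∀ t, γ (t + 1) = γ t) (pδ : ∀ t, δ (t + 1) = δ t)
    (hpos : ∀ t, 0 < (δ t * (starRingEnd ℂ) (γ t)).re) {n : ℤ} (hn : HasWinding γ n) :
    HasWinding δ n := by
  obtain ⟨θ, hθc, hθ, hθ1⟩ := hn
  refine ⟨fun t => θ t + Complex.arg (δ t * (starRingEnd ℂ) (γ t)), ?_, ?_, ?_⟩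
  · refine hθc.add ?_
    rw [continuous_iff_continuousAt]
    intro t
    have h1 : ContinuousAt Complex.arg (δ t * (starRingEnd ℂ) (γ t)) :=
      Complex.continuousAt_arg (Or.inl (hpos t))
    have h2 : Continuous fun t => δ t * (starRingEnd ℂ) (γ t) :=
      hδ.mul (Complex.continuous_conj.comp hγ)
    exact ContinuousAt.comp (f := fun t => δ t * (starRingEnd ℂ) (γ t)) h1 h2.continuousAt
  · intro t
    have hne : γ t ≠ 0 := by
      intro h
      have := hpos t
      rw [h] at this
      simp at this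
    have hn0 : (‖γ t‖ : ℂ) ≠ 0 := by
      rw [Ne, Complex.ofReal_eq_zero, norm_eq_zero]
      exact hne
    have e1 := Complex.norm_mul_exp_arg_mul_I (δ t * (starRingEnd ℂ) (γ t))
    rw [norm_mul, RCLike.norm_conj] at e1
    have e2 : (starRingEnd ℂ) (γ t) * γ t = (‖γ t‖ : ℂ) ^ 2 := by
      rw [mul_comm, Complex.mul_conj, normSq_eq_norm_sq]
      push_cast
      rfl
    have e3 : δ t * (‖γ t‖ : ℂ) ^ 2 = ((‖δ t‖ * ‖γ t‖ : ℝ) : ℂ) *
        Complex.exp ((Complex.arg (δ t * (starRingEnd ℂ) (γ t)) : ℂ) * I) *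
        ((‖γ t‖ : ℂ) * Complex.exp ((θ t : ℂ) * I)) := by
      rw [← hθ t, e1, mul_assoc, e2]
    push_cast at e3 ⊢
    rw [add_mul, Complex.exp_add]
    refine mul_right_cancel₀ (pow_ne_zero 2 hn0) ?_
    rw [e3]
    ring
  · intro t
    simp only
    rw [hθ1, pγ, pδ]
    ring

theorem hasWinding_one : HasWinding (fun _ => 1) 0 :=
  ⟨fun _ => 0, continuous_const, fun t => by simp, fun t => by simp⟩

theorem hasWinding_neg_one : HasWinding (fun _ => -1) 0 :=
  ⟨fun _ => Real.pi, continuous_const, fun t => by simp, fun t => by simp⟩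

/-- a loop in the right half-plane -/
theorem hasWinding_of_re_pos {γ : ℝ → ℂ} (hγ : Continuous γ) (pγ : ∀ t, γ (t + 1) = γ t)
    (h : ∀ t, 0 < (γ t).re) : HasWinding γ 0 :=
  HasWinding.congr continuous_const hγ (fun _ => rfl) pγ (fun t => by simpa using h t)
    hasWinding_one

/-- a loop in the left half-plane -/
theorem hasWinding_of_re_neg {γ : ℝ → ℂ} (hγ : Continuous γ) (pγ : ∀ t, γ (t + 1) = γ t)
    (h : ∀ t, (γ t).re < 0) : HasWinding γ 0 :=
  HasWinding.congr continuous_const hγ (fun _ => rfl) pγ (fun t => by simpa using h t)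
    hasWinding_neg_one

/-- the unit circle -/
noncomputable def circ (t : ℝ) : ℂ := Complex.exp (((2 * Real.pi * t : ℝ) : ℂ) * I)

theorem circ_continuous : Continuous circ := by
  unfold circ
  fun_prop

theorem circ_norm (t : ℝ) : ‖circ t‖ = 1 := Complex.norm_exp_ofReal_mul_I _

theorem circ_periodic (t : ℝ) : circ (t + 1) = circ t := by
  unfold circ
  rw [show ((2 * Real.pi * (t + 1) : ℝ) : ℂ) * I = ((2 * Real.pi * t : ℝ) : ℂ) * I +
    2 * Real.pi * I by push_cast; ring, Complex.exp_add, Complex.exp_two_pi_mul_I, mul_one]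

theorem hasWinding_circ {r : ℝ} (hr : 0 < r) : HasWinding (fun t => (r : ℂ) * circ t) 1 := by
  refine ⟨fun t => 2 * Real.pi * t, by fun_prop, fun t => ?_, fun t => ?_⟩
  · rw [norm_mul, circ_norm, mul_one, Complex.norm_real, Real.norm_of_nonneg hr.le]
    rfl
  · push_cast
    ring

/-- a circle has winding number one about the points inside -/
theorem hasWinding_circle {r : ℝ} {m : ℂ} (hr : ‖m‖ < r) :
    HasWinding (fun t => m + (r : ℂ) * circ t) 1 := by
  have hr0 : 0 < r := (norm_nonneg m).trans_lt hr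
  have c1 : Continuous fun t => (r : ℂ) * circ t := continuous_const.mul circ_continuous
  have c2 : Continuous fun t => m + (r : ℂ) * circ t := continuous_const.add c1
  refine HasWinding.congr c1 c2
    (fun t => by rw [circ_periodic]) (fun t => by rw [circ_periodic]) (fun t => ?_)
    (hasWinding_circ hr0)
  have h1 : (m + (r : ℂ) * circ t) * (starRingEnd ℂ) ((r : ℂ) * circ t) =
      m * (starRingEnd ℂ) ((r : ℂ) * circ t) + ((r ^ 2 : ℝ) : ℂ) := by
    rw [add_mul, Complex.mul_conj ((r : ℂ) * circ t), normSq_eq_norm_sq, norm_mul, circ_norm,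
      mul_one, Complex.norm_real, Real.norm_of_nonneg hr0.le]
  rw [h1, add_re, ofReal_re]
  have h2 := abs_le.1 (Complex.abs_re_le_norm (m * (starRingEnd ℂ) ((r : ℂ) * circ t)))
  rw [norm_mul, RCLike.norm_conj, norm_mul, circ_norm, mul_one, Complex.norm_real,
    Real.norm_of_nonneg hr0.le] at h2
  nlinarith [h2.1]

/-- homotopy invariance -/
theorem HasWinding.homotopy {Γ : unitInterval → ℝ → ℂ}
    (hc : Continuous fun p : unitInterval × ℝ => Γ p.1 p.2)
    (hp : ∀ s t, Γ s (t + 1) = Γ s t) (h0 : ∀ s t, Γ s t ≠ 0) {n : ℤ}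
    (hn : HasWinding (Γ 0) n) : HasWinding (Γ 1) n := by
  have hcs : ∀ s, Continuous (Γ s) := fun s => hc.comp (by fun_prop : Continuous fun t : ℝ => (s, t))
  have hfr : ∀ s t, Γ s t = Γ s (Int.fract t) := by
    intro s t
    have : Function.Periodic (Γ s) 1 := fun t => hp s t
    have h := this.sub_int_mul_eq (n := ⌊t⌋) (x := t)
    rw [mul_one] at h
    exact h.symm
  have key : ∀ s₀ : unitInterval, ∀ᶠ s in 𝓝 s₀, (HasWinding (Γ s) n ↔ HasWinding (Γ s₀) n) := by
    intro s₀
    have h1 : ∀ᶠ s in 𝓝 s₀, ∀ t ∈ Set.Icc (0 : ℝ) 1,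
        0 < (Γ s t * (starRingEnd ℂ) (Γ s₀ t)).re := by
      refine isCompact_Icc.eventually_forall_of_forall_eventually
        (P := fun s t => 0 < (Γ s t * (starRingEnd ℂ) (Γ s₀ t)).re) ?_
      intro t _
      have hcont : Continuous fun z : unitInterval × ℝ =>
          (Γ z.1 z.2 * (starRingEnd ℂ) (Γ s₀ z.2)).re := by
        have hcs₀ := (hcs s₀).comp (continuous_snd (X := unitInterval) (Y := ℝ))
        exact Complex.continuous_re.comp (hc.mul (Complex.continuous_conj.comp hcs₀))
      refine hcont.continuousAt.eventually (lt_mem_nhds ?_)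
      simp only
      rw [Complex.mul_conj, ofReal_re]
      exact normSq_pos.2 (h0 s₀ t)
    filter_upwards [h1] with s hs
    have hs' : ∀ t, 0 < (Γ s t * (starRingEnd ℂ) (Γ s₀ t)).re := by
      intro t
      rw [hfr s t, hfr s₀ t]
      exact hs _ ⟨Int.fract_nonneg t, (Int.fract_lt_one t).le⟩
    constructor
    · refine HasWinding.congr (hcs s) (hcs s₀) (hp s) (hp s₀) (fun t => ?_)
      have e := hs' t
      rw [mul_re, conj_re, conj_im] at e ⊢
      linarith
    · exact HasWinding.congr (hcs s₀) (hcs s) (hp s₀) (hp s) hs'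
  have hcl : IsClopen {s | HasWinding (Γ s) n} := by
    constructor
    · rw [← isOpen_compl_iff, isOpen_iff_mem_nhds]
      intro s hs
      filter_upwards [key s] with s' hs'
      exact fun h => hs (hs'.1 h)
    · rw [isOpen_iff_mem_nhds]
      intro s hs
      filter_upwards [key s] with s' hs'
      exact hs'.2 hs
  have huniv := hcl.eq_univ ⟨0, hn⟩
  have : (1 : unitInterval) ∈ {s | HasWinding (Γ s) n} := by rw [huniv]; trivial
  exact this

end Pool.Agent.Q139.Cantor
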